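import Pool.Agent.Helper41.KV.GoalsD

/-!
# Packet KV-FS: coefficients of the right field and its equation
-/

set_option autoImplicit false

namespace Pool.Agent.Helper41.KV

open Real MeasureTheory Pool.Agent.Helper33.KV

/-- increment of the recursion -/
noncomputable def fsInc (f0 : ℝ → ℝ) (i : ℕ) : ℝ → ℝ := fun x => -(1 / ((i : ℝ) + 1)) *
  (iteratedDeriv 3 ((Fs f0 i).coeff i) x + deriv ((Fs f0 i ^ 5).coeff i) x)

theorem fs_succ (f0 : ℝ → ℝ) (i : ℕ) :
    Fs f0 (i + 1) = Fs f0 i + Polynomial.monomial (i + 1) (fsInc f0 i) := rfl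

theorem fs_natDegree (f0 : ℝ → ℝ) (n : ℕ) : (Fs f0 n).natDegree ≤ n := by
  induction n with
  | zero => simp [Fs]
  | succ n ih =>
    rw [fs_succ]
    refine (Polynomial.natDegree_add_le _ _).trans (max_le (ih.trans (Nat.le_succ n)) ?_)
    exact Polynomial.natDegree_monomial_le _

theorem fs_coeff_stable (f0 : ℝ → ℝ) {i m n : ℕ} (him : i ≤ m) (hmn : m ≤ n) :
    (Fs f0 n).coeff i = (Fs f0 m).coeff i := by
  induction n, hmn using Nat.le_induction with
  | base => rfl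
  | succ n hn ih =>
    rw [fs_succ, Polynomial.coeff_add, Polynomial.coeff_monomial, if_neg (by omega), add_zero, ih]

theorem fs_pow_stable (f0 : ℝ → ℝ) {k n : ℕ} (hkn : k ≤ n) :
    (Fs f0 n ^ 5).coeff k = (Fs f0 k ^ 5).coeff k := by
  have h1 : Polynomial.X ^ (k + 1) ∣ Fs f0 n - Fs f0 k := by
    rw [Polynomial.X_pow_dvd_iff]
    intro d hd
    rw [Polynomial.coeff_sub, fs_coeff_stable f0 (m := k) (by omega) hkn, sub_self]
  have h2 := h1.trans (sub_dvd_pow_sub_pow (Fs f0 n) (Fs f0 k) 5)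
  rw [Polynomial.X_pow_dvd_iff] at h2
  have h3 := h2 k (by omega)
  rw [Polynomial.coeff_sub] at h3
  exact sub_eq_zero.1 h3

theorem fs_coeff_succ (f0 : ℝ → ℝ) {k n : ℕ} (hkn : k < n) (x : ℝ) :
    ((k : ℝ) + 1) * (Fs f0 n).coeff (k + 1) x + iteratedDeriv 3 ((Fs f0 n).coeff k) x +
      deriv ((Fs f0 n ^ 5).coeff k) x = 0 := by
  have h1 : (Fs f0 n).coeff (k + 1) = fsInc f0 k := by
    rw [fs_coeff_stable f0 (m := k + 1) le_rfl hkn, fs_succ, Polynomial.coeff_add,
      Polynomial.coeff_monomial, if_pos rfl,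
      Polynomial.coeff_eq_zero_of_natDegree_lt (lt_of_le_of_lt (fs_natDegree f0 k)
        (Nat.lt_succ_self k)), zero_add]
  rw [h1, fs_coeff_stable f0 (m := k) le_rfl hkn.le, fs_pow_stable f0 hkn.le]
  unfold fsInc
  have h2 : ((k : ℝ) + 1) ≠ 0 := by positivity
  field_simp
  ring

section

variable (hI : S_ISS)
include hI

theorem iss_sum {ι : Type} (s : Finset ι) {γ : ℝ} {f : ι → ℝ → ℝ} (h : ∀ i ∈ s, IsS γ (f i)) :
    IsS γ (∑ i ∈ s, f i) := by
  classical
  induction s using Finset.induction_on with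
  | empty =>
    rw [Finset.sum_empty]
    exact hI.2.2.2.2.2.2 γ
  | insert a s ha ih =>
    rw [Finset.sum_insert ha]
    exact hI.2.1 γ _ _ (h a (Finset.mem_insert_self a s))
      (ih fun i hi => h i (Finset.mem_insert_of_mem hi))

theorem ps_mul {γ γ' : ℝ} {p q : Polynomial (ℝ → ℝ)} (hp : ∀ i : ℕ, IsS (γ - 3 * i) (p.coeff i))
    (hq : ∀ i : ℕ, IsS (γ' - 3 * i) (q.coeff i)) (i : ℕ) :
    IsS (γ + γ' - 3 * i) ((p * q).coeff i) := by
  rw [Polynomial.coeff_mul]
  refine iss_sum hI _ fun x hx => ?_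
  have hx' := Finset.HasAntidiagonal.mem_antidiagonal.1 hx
  have h := hI.2.2.2.1 _ _ _ _ (hp x.1) (hq x.2)
  have e : γ - 3 * (x.1 : ℝ) + (γ' - 3 * (x.2 : ℝ)) = γ + γ' - 3 * (i : ℝ) := by
    rw [← hx']
    push_cast
    ring
  rw [e] at h
  exact h

theorem ps_pow5 {γ : ℝ} {p : Polynomial (ℝ → ℝ)} (hp : ∀ i : ℕ, IsS (γ - 3 * i) (p.coeff i))
    (i : ℕ) : IsS (5 * γ - 3 * i) ((p ^ 5).coeff i) := by
  have e : p ^ 5 = p * p * p * p * p := by ring
  rw [e]
  have h := ps_mul hI (ps_mul hI (ps_mul hI (ps_mul hI hp hp) hp) hp) hp i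
  have e' : γ + γ + γ + γ + γ - 3 * (i : ℝ) = 5 * γ - 3 * i := by ring
  rw [e'] at h
  exact h

theorem fs_iss {α : ℝ} {f0 : ℝ → ℝ} (h0 : 0 < α) (hf : IsS (α / 2 - 1 / 2) f0) (n : ℕ) :
    ∀ i : ℕ, IsS (α / 2 - 1 / 2 - 3 * i) ((Fs f0 n).coeff i) := by
  induction n with
  | zero =>
    intro i
    show IsS _ ((Polynomial.C f0).coeff i)
    rw [Polynomial.coeff_C]
    split_ifs with h
    · subst h
      simpa using hf
    · exact hI.2.2.2.2.2.2 _
  | succ n ih =>
    intro i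
    rw [fs_succ, Polynomial.coeff_add, Polynomial.coeff_monomial]
    split_ifs with h
    · subst h
      refine hI.2.1 _ _ _ (ih (n + 1)) ?_
      have h1 := hI.2.2.2.2.2.1 _ _ (ih n)
      have h2 := hI.2.2.2.2.1 _ _ (ps_pow5 hI ih n)
      have h3 := hI.1 _ (α / 2 - 1 / 2 - 3 * (n : ℝ) - 3) _ (by linarith) h2
      have h4 := hI.2.2.1 _ _ (-(1 / ((n : ℝ) + 1))) (hI.2.1 _ _ _ h1 h3)
      have e : α / 2 - 1 / 2 - 3 * ((n + 1 : ℕ) : ℝ) = α / 2 - 1 / 2 - 3 * (n : ℝ) - 3 := by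
        push_cast
        ring
      rw [e]
      exact h4
    · rw [add_zero]
      exact ih i

end

theorem iss_contDiffAt {γ : ℝ} {φ : ℝ → ℝ} (h : IsS γ φ) {x : ℝ} (hx : 0 < x) (k : ℕ) :
    ContDiffAt ℝ k φ x :=
  (h.1.contDiffAt (Ioi_mem_nhds hx)).of_le (by exact_mod_cast le_top)

theorem iss_diffAt {γ : ℝ} {φ : ℝ → ℝ} (h : IsS γ φ) {x : ℝ} (hx : 0 < x) :
    DifferentiableAt ℝ φ x :=
  (iss_contDiffAt h hx 1).differentiableAt (by norm_num)

theorem fr_pow (f0 : ℝ → ℝ) (n : ℕ) (t x : ℝ) :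
    FR f0 n t x ^ 5 = ∑ i ∈ Finset.range (5 * n + 1), t ^ i * (Fs f0 n ^ 5).coeff i x := by
  have h1 : ∀ p : Polynomial (ℝ → ℝ), ∀ N : ℕ, p.natDegree ≤ N →
      ∑ i ∈ Finset.range (N + 1), t ^ i * p.coeff i x =
        (p.map (Pi.evalRingHom (fun _ : ℝ => ℝ) x)).eval t := by
    intro p N hN
    rw [Polynomial.eval_eq_sum_range' (n := N + 1)
      (lt_of_le_of_lt (Polynomial.natDegree_map_le.trans hN) (Nat.lt_succ_self N))]
    refine Finset.sum_congr rfl fun i _ => ?_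
    rw [Polynomial.coeff_map, mul_comm]
    rfl
  rw [h1 _ (5 * n) ((Polynomial.natDegree_pow_le).trans
    (Nat.mul_le_mul_left 5 (fs_natDegree f0 n)))]
  unfold FR
  rw [h1 _ n (fs_natDegree f0 n), Polynomial.map_pow, Polynomial.eval_pow]

/-- Packet FS. -/
theorem thm_FS (hI : S_ISS) : S_FS := by
  intro α f0 h0 h1 hf n
  have hc := fs_iss hI h0 hf n
  refine ⟨hc, ?_⟩
  have hp := ps_pow5 hI hc
  refine ⟨fun i => (if i = n then iteratedDeriv 3 ((Fs f0 n).coeff n) else 0) +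
    deriv ((Fs f0 n ^ 5).coeff i), fun i => ?_, fun t x hx => ?_⟩
  · refine hI.2.1 _ _ _ ?_ ?_
    · split_ifs with h
      · subst h
        have h2 := hI.2.2.2.2.2.1 _ _ (hc i)
        have e : α / 2 - 1 / 2 - 3 * ((i : ℝ) + 1) = α / 2 - 1 / 2 - 3 * (i : ℝ) - 3 := by ring
        rw [e]
        exact h2
      · exact hI.2.2.2.2.2.2 _
    · exact hI.1 _ _ _ (by linarith) (hI.2.2.2.2.1 _ _ (hp i))
  · -- time derivative
    have ht : deriv (fun τ => FR f0 n τ x) t =
        ∑ k ∈ Finset.range n, t ^ k * (((k : ℝ) + 1) * (Fs f0 n).coeff (k + 1) x) := by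
      have hd : HasDerivAt (fun τ => FR f0 n τ x)
          (∑ i ∈ Finset.range (n + 1), ((i : ℝ) * t ^ (i - 1)) * (Fs f0 n).coeff i x) t := by
        unfold FR
        refine HasDerivAt.fun_sum fun i _ => ?_
        exact (hasDerivAt_pow i t).mul_const _
      rw [hd.deriv, Finset.sum_range_succ']
      simp only [Nat.cast_zero, zero_mul, add_zero, Nat.add_sub_cancel]
      refine Finset.sum_congr rfl fun k _ => ?_
      push_cast
      ring
    have hx3 : iteratedDeriv 3 (FR f0 n t) x =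
        ∑ k ∈ Finset.range (n + 1), t ^ k * iteratedDeriv 3 ((Fs f0 n).coeff k) x := by
      have e : FR f0 n t = fun x => ∑ i ∈ Finset.range (n + 1), t ^ i * (Fs f0 n).coeff i x := rfl
      rw [e, iteratedDeriv_fun_sum fun i _ => contDiffAt_const.mul (iss_contDiffAt (hc i) hx 3)]
      refine Finset.sum_congr rfl fun k _ => ?_
      exact iteratedDeriv_const_mul_field _ _
    have hx5 : deriv (fun x => FR f0 n t x ^ 5) x =
        ∑ k ∈ Finset.range (5 * n + 1), t ^ k * deriv ((Fs f0 n ^ 5).coeff k) x := by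
      have e : (fun x => FR f0 n t x ^ 5) = fun x =>
          ∑ i ∈ Finset.range (5 * n + 1), t ^ i * (Fs f0 n ^ 5).coeff i x := by
        funext x
        exact fr_pow f0 n t x
      rw [e]
      refine HasDerivAt.deriv (HasDerivAt.fun_sum fun i _ => ?_)
      exact (iss_diffAt (hp i) hx).hasDerivAt.const_mul _
    have hsplit : ∑ k ∈ Finset.range (5 * n + 1), t ^ k * deriv ((Fs f0 n ^ 5).coeff k) x =
        ∑ k ∈ Finset.range n, t ^ k * deriv ((Fs f0 n ^ 5).coeff k) x +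
        ∑ k ∈ Finset.Icc n (5 * n), t ^ k * deriv ((Fs f0 n ^ 5).coeff k) x := by
      rw [← Finset.sum_union]
      · refine Finset.sum_congr ?_ fun _ _ => rfl
        ext k
        simp only [Finset.mem_range, Finset.mem_union, Finset.mem_Icc]
        omega
      · rw [Finset.disjoint_left]
        intro k hk hk'
        simp only [Finset.mem_range, Finset.mem_Icc] at hk hk'
        omega
    rw [ht, hx3, hx5, hsplit, Finset.sum_range_succ]
    have hzero : ∑ k ∈ Finset.range n, t ^ k * (((k : ℝ) + 1) * (Fs f0 n).coeff (k + 1) x) +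
        ∑ k ∈ Finset.range n, t ^ k * iteratedDeriv 3 ((Fs f0 n).coeff k) x +
        ∑ k ∈ Finset.range n, t ^ k * deriv ((Fs f0 n ^ 5).coeff k) x = 0 := by
      rw [← Finset.sum_add_distrib, ← Finset.sum_add_distrib]
      refine Finset.sum_eq_zero fun k hk => ?_
      have h := fs_coeff_succ f0 (Finset.mem_range.1 hk) x
      rw [← mul_add, ← mul_add, h, mul_zero]
    have hr : ∑ i ∈ Finset.Icc n (5 * n), t ^ i *
        ((if i = n then iteratedDeriv 3 ((Fs f0 n).coeff n) else 0) +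
          deriv ((Fs f0 n ^ 5).coeff i)) x =
        t ^ n * iteratedDeriv 3 ((Fs f0 n).coeff n) x +
        ∑ k ∈ Finset.Icc n (5 * n), t ^ k * deriv ((Fs f0 n ^ 5).coeff k) x := by
      have e : ∀ i, t ^ i * ((if i = n then iteratedDeriv 3 ((Fs f0 n).coeff n) else 0) +
          deriv ((Fs f0 n ^ 5).coeff i)) x =
          (if i = n then t ^ n * iteratedDeriv 3 ((Fs f0 n).coeff n) x else 0) +
            t ^ i * deriv ((Fs f0 n ^ 5).coeff i) x := by
        intro i
        rw [Pi.add_apply, mul_add]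
        congr 1
        split_ifs with h
        · rw [h]
        · rw [Pi.zero_apply, mul_zero]
      rw [Finset.sum_congr rfl fun i _ => e i, Finset.sum_add_distrib, Finset.sum_ite_eq',
        if_pos (by rw [Finset.mem_Icc]; omega)]
    rw [hr]
    linear_combination hzero

end Pool.Agent.Helper41.KV
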