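import Pool.Agent.Helper41.KV.GoalsC

/-!
# Packet KV-MCL2: Hadamard lemma and bounds for the classes `MT`, `MP`
-/

set_option autoImplicit false

namespace Pool.Agent.Helper41.KV

open Real MeasureTheory

/-! ### Hadamard lemma -/

/-- the derivatives of the Hadamard quotient -/
noncomputable def mcl2G (h : ℝ → ℝ) (k : ℕ) (z : ℝ) : ℝ :=
  ∫ θ in (0 : ℝ)..1, θ ^ k * iteratedDeriv (k + 1) h (θ * z)

theorem mcl2_cont_it {h : ℝ → ℝ} (hh : ContDiff ℝ (⊤ : ℕ∞) h) (k : ℕ) :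
    Continuous (iteratedDeriv k h) :=
  hh.continuous_iteratedDeriv k (by exact_mod_cast le_top)

theorem mcl2_it_hasDeriv {h : ℝ → ℝ} (hh : ContDiff ℝ (⊤ : ℕ∞) h) (k : ℕ) (z : ℝ) :
    HasDerivAt (iteratedDeriv k h) (iteratedDeriv (k + 1) h z) z := by
  have h1 : Differentiable ℝ (iteratedDeriv k h) :=
    hh.differentiable_iteratedDeriv k (by exact_mod_cast WithTop.coe_lt_top k)
  rw [iteratedDeriv_succ]
  exact (h1 z).hasDerivAt

theorem mcl2G_deriv {h : ℝ → ℝ} (hh : IsH h) (k : ℕ) (z : ℝ) :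
    HasDerivAt (mcl2G h k) (mcl2G h (k + 1) z) z := by
  obtain ⟨hs, hb⟩ := hh
  obtain ⟨C, hC⟩ := hb (k + 2)
  have key := intervalIntegral.hasDerivAt_integral_of_dominated_loc_of_deriv_le
    (μ := volume) (a := (0 : ℝ)) (b := 1) (x₀ := z) (s := Set.univ)
    (F := fun z θ => θ ^ k * iteratedDeriv (k + 1) h (θ * z))
    (F' := fun z θ => θ ^ (k + 1) * iteratedDeriv (k + 2) h (θ * z))
    (bound := fun _ => C) Filter.univ_mem ?_ ?_ ?_ ?_ ?_ ?_
  · exact key.2
  · refine Filter.Eventually.of_forall fun x => ?_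
    refine Continuous.aestronglyMeasurable ?_
    exact (continuous_id.pow k).mul ((mcl2_cont_it hs (k + 1)).comp
      (continuous_id.mul continuous_const))
  · refine Continuous.intervalIntegrable ?_ _ _
    exact (continuous_id.pow k).mul ((mcl2_cont_it hs (k + 1)).comp
      (continuous_id.mul continuous_const))
  · refine Continuous.aestronglyMeasurable ?_
    exact (continuous_id.pow (k + 1)).mul ((mcl2_cont_it hs (k + 2)).comp
      (continuous_id.mul continuous_const))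
  · refine Filter.Eventually.of_forall fun θ hθ x _ => ?_
    rw [Set.uIoc_of_le zero_le_one] at hθ
    rw [Real.norm_eq_abs, abs_mul, abs_pow, abs_of_pos hθ.1]
    calc θ ^ (k + 1) * |iteratedDeriv (k + 2) h (θ * x)|
        ≤ 1 * |iteratedDeriv (k + 2) h (θ * x)| :=
          mul_le_mul_of_nonneg_right (pow_le_one₀ hθ.1.le hθ.2) (abs_nonneg _)
      _ ≤ C := by rw [one_mul]; exact hC _
  · exact intervalIntegrable_const
  · refine Filter.Eventually.of_forall fun θ _ x _ => ?_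
    have h1 : HasDerivAt (fun x : ℝ => θ * x) θ x := by
      simpa using (hasDerivAt_id x).const_mul θ
    have h2 := (mcl2_it_hasDeriv hs (k + 1) (θ * x)).comp x h1
    have h3 := h2.const_mul (θ ^ k)
    refine h3.congr_deriv ?_
    ring

theorem mcl2G_it {h : ℝ → ℝ} (hh : IsH h) (k : ℕ) :
    iteratedDeriv k (mcl2G h 0) = mcl2G h k := by
  induction k with
  | zero => simp
  | succ k ih =>
    rw [iteratedDeriv_succ, ih]
    funext z
    exact (mcl2G_deriv hh k z).deriv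

theorem mcl2_hadamard {h : ℝ → ℝ} (hh : IsH h) :
    ∃ g : ℝ → ℝ, IsH g ∧ ∀ z, h z = h 0 + z * g z := by
  refine ⟨mcl2G h 0, ⟨?_, ?_⟩, ?_⟩
  · refine contDiff_of_differentiable_iteratedDeriv fun m _ => ?_
    rw [mcl2G_it hh m]
    exact fun z => (mcl2G_deriv hh m z).differentiableAt
  · intro k
    obtain ⟨C, hC⟩ := hh.2 (k + 1)
    refine ⟨C * |1 - 0|, fun z => ?_⟩
    rw [mcl2G_it hh k]
    unfold mcl2G
    rw [← Real.norm_eq_abs]
    refine intervalIntegral.norm_integral_le_of_norm_le_const fun θ hθ => ?_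
    rw [Set.uIoc_of_le zero_le_one] at hθ
    rw [Real.norm_eq_abs, abs_mul, abs_pow, abs_of_pos hθ.1]
    calc θ ^ k * |iteratedDeriv (k + 1) h (θ * z)|
        ≤ 1 * |iteratedDeriv (k + 1) h (θ * z)| :=
          mul_le_mul_of_nonneg_right (pow_le_one₀ hθ.1.le hθ.2) (abs_nonneg _)
      _ ≤ C := by rw [one_mul]; exact hC _
  · intro z
    have h1 : ∫ θ in (0 : ℝ)..1, z * iteratedDeriv 1 h (θ * z) = h (1 * z) - h (0 * z) := by
      refine intervalIntegral.integral_eq_sub_of_hasDerivAt (f := fun θ => h (θ * z)) ?_ ?_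
      · intro θ _
        have h2 : HasDerivAt (fun θ : ℝ => θ * z) z θ := by
          simpa using (hasDerivAt_id θ).mul_const z
        have h3 := mcl2_it_hasDeriv hh.1 0 (θ * z)
        rw [iteratedDeriv_zero] at h3
        refine (h3.comp θ h2).congr_deriv ?_
        simp only [zero_add]
        ring
      · refine Continuous.intervalIntegrable ?_ _ _
        exact continuous_const.mul ((mcl2_cont_it hh.1 1).comp (continuous_id.mul continuous_const))
    rw [intervalIntegral.integral_const_mul] at h1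
    have h4 : mcl2G h 0 z = ∫ θ in (0 : ℝ)..1, iteratedDeriv 1 h (θ * z) := by
      unfold mcl2G
      simp
    rw [h4]
    rw [one_mul, zero_mul] at h1
    linarith

/-! ### Tails -/

theorem mcl2_T_mul_y (hE : S_ECL1) {a : ℝ → ℝ} (ha : IsT a) : IsT (fun y => y * a y) := by
  obtain ⟨EW, WP, Ea, -, Pa, PE, -, PP, Ed, -, -, Ppol, Pth, Es, -, Int, EInt⟩ := hE
  obtain ⟨q, hq⟩ := ha
  refine ⟨Polynomial.X * q, ?_⟩
  have h1 : IsP (fun y : ℝ => y) := by
    have := Ppol Polynomial.X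
    simpa using this
  have h2 := PE _ _ h1 hq
  have e : (fun y => y * a y - (Polynomial.X * q).eval y * chiM y) =
      fun y => y * (a y - q.eval y * chiM y) := by
    funext y
    rw [Polynomial.eval_mul, Polynomial.eval_X]
    ring
  show IsE (fun y => y * a y - (Polynomial.X * q).eval y * chiM y)
  rw [e]
  exact h2

theorem mcl2_chi_eq (y : ℝ) : chiM y = 1 / (1 + Real.exp (4 * y)) := by
  unfold chiM
  rw [Real.tanh_eq_sinh_div_cosh]
  have hc : Real.cosh (2 * y) ≠ 0 := (Real.cosh_pos _).ne'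
  have he : (1 + Real.exp (4 * y)) ≠ 0 := by positivity
  have h1 : Real.exp (4 * y) = Real.exp (2 * y) * Real.exp (2 * y) := by
    rw [← Real.exp_add]
    ring_nf
  have h2 : Real.exp (2 * y) * Real.exp (-(2 * y)) = 1 := by
    rw [← Real.exp_add]
    simp
  rw [Real.sinh_eq, Real.cosh_eq, h1]
  rw [Real.cosh_eq] at hc
  rw [h1] at he
  generalize Real.exp (2 * y) = u at *
  generalize Real.exp (-(2 * y)) = v at *
  have hc' : u + v ≠ 0 := fun h => hc (by rw [h]; simp)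
  field_simp
  linear_combination (2 * u) * h2

theorem mcl2_chi_nonneg (y : ℝ) : 0 ≤ chiM y := by
  rw [mcl2_chi_eq]
  positivity

theorem mcl2_chi_le_one (y : ℝ) : chiM y ≤ 1 := by
  rw [mcl2_chi_eq, div_le_one (by positivity)]
  have := Real.exp_pos (4 * y)
  linarith

theorem mcl2_chi_le_exp (y : ℝ) : chiM y ≤ Real.exp (-(4 * y)) := by
  rw [mcl2_chi_eq, Real.exp_neg, one_div]
  refine inv_anti₀ (Real.exp_pos _) ?_
  linarith

/-- the polynomial weight is absorbed by an exponential -/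
theorem mcl2_poly_exp (n : ℕ) : ∃ K : ℝ, 0 ≤ K ∧ ∀ x : ℝ, 0 ≤ x →
    (1 + x) ^ n ≤ K * Real.exp x := by
  set d : ℝ := 1 / (n + 1) with hd
  have hn : (0 : ℝ) < (n : ℝ) + 1 := by positivity
  have hd0 : 0 < d := by positivity
  refine ⟨(1 + 1 / d) ^ n, by positivity, fun x hx => ?_⟩
  have h1 : 1 + x ≤ (1 + 1 / d) * Real.exp (d * x) := by
    have h2 : d * x + 1 ≤ Real.exp (d * x) := Real.add_one_le_exp _
    have hdx : 0 ≤ d * x := by positivity
    have h3 : 1 ≤ Real.exp (d * x) := by linarith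
    have h4 : x ≤ 1 / d * Real.exp (d * x) := by
      rw [one_div, inv_mul_eq_div, le_div_iff₀ hd0]
      linarith
    calc 1 + x ≤ Real.exp (d * x) + 1 / d * Real.exp (d * x) := add_le_add h3 h4
      _ = _ := by ring
  calc (1 + x) ^ n ≤ ((1 + 1 / d) * Real.exp (d * x)) ^ n :=
        pow_le_pow_left₀ (by positivity) h1 n
    _ = (1 + 1 / d) ^ n * Real.exp (n * (d * x)) := by rw [mul_pow, ← Real.exp_nat_mul]
    _ ≤ (1 + 1 / d) ^ n * Real.exp x := by
        refine mul_le_mul_of_nonneg_left (Real.exp_le_exp.2 ?_) (by positivity)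
        have : (n : ℝ) * d ≤ 1 := by
          rw [hd, mul_one_div, div_le_one hn]
          linarith
        nlinarith

theorem mcl2_T_bd (hE : S_ECL1) {a : ℝ → ℝ} (ha : IsT a) :
    ∃ (C : ℝ) (n : ℕ), 0 ≤ C ∧ ∀ y : ℝ,
      (0 ≤ y → |a y| ≤ C * Real.exp (-(y / 2))) ∧ (y ≤ 0 → |a y| ≤ C * (1 + |y|) ^ n) := by
  obtain ⟨EW, WP, Ea, -, Pa, PE, -, PP, Ed, -, -, Ppol, Pth, Es, -, Int, EInt⟩ := hE
  obtain ⟨q, hq⟩ := ha
  obtain ⟨C1, hC1⟩ := hq.2 0 (1 / 2) (by norm_num)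
  obtain ⟨n, C2, hC2⟩ := (Ppol q).2 0
  simp only [iteratedDeriv_zero] at hC1 hC2
  obtain ⟨K, hK0, hK⟩ := mcl2_poly_exp n
  have hC20 : 0 ≤ C2 := by
    have h := hC2 0
    simp at h
    exact (abs_nonneg _).trans h
  have hC10 : 0 ≤ C1 := by
    have h := hC1 0
    simp only [abs_zero, mul_zero, neg_zero, Real.exp_zero, mul_one] at h
    exact (abs_nonneg _).trans h
  have hsplit : ∀ y, |a y| ≤ |a y - q.eval y * chiM y| + |q.eval y| * chiM y := by
    intro y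
    calc |a y| = |(a y - q.eval y * chiM y) + q.eval y * chiM y| := by ring_nf
      _ ≤ |a y - q.eval y * chiM y| + |q.eval y * chiM y| := abs_add_le _ _
      _ = _ := by rw [abs_mul, abs_of_nonneg (mcl2_chi_nonneg y)]
  refine ⟨C1 + C2 * K + C2, n, by positivity, fun y => ⟨fun hy => ?_, fun hy => ?_⟩⟩
  · have hay : |y| = y := abs_of_nonneg hy
    have h1 := hC1 y
    rw [hay] at h1
    have h2 : |q.eval y| * chiM y ≤ C2 * K * Real.exp (-(y / 2)) := by
      have h3 := hC2 y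
      rw [hay] at h3
      calc |q.eval y| * chiM y ≤ (C2 * (K * Real.exp y)) * Real.exp (-(4 * y)) := by
            refine mul_le_mul (h3.trans (mul_le_mul_of_nonneg_left (hK y hy) hC20))
              (mcl2_chi_le_exp y) (mcl2_chi_nonneg y) (by positivity)
        _ = C2 * K * (Real.exp y * Real.exp (-(4 * y))) := by ring
        _ = C2 * K * Real.exp (y + -(4 * y)) := by rw [← Real.exp_add]
        _ ≤ _ := by
            refine mul_le_mul_of_nonneg_left (Real.exp_le_exp.2 ?_) (by positivity)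
            linarith
    have h4 : C1 * Real.exp (-(1 / 2 * y)) = C1 * Real.exp (-(y / 2)) := by ring_nf
    rw [h4] at h1
    calc |a y| ≤ _ := hsplit y
      _ ≤ C1 * Real.exp (-(y / 2)) + C2 * K * Real.exp (-(y / 2)) := add_le_add h1 h2
      _ ≤ (C1 + C2 * K + C2) * Real.exp (-(y / 2)) := by
          have := mul_nonneg hC20 (Real.exp_pos (-(y / 2))).le
          nlinarith
  · have h1 := hC1 y
    have hexp : Real.exp (-(1 / 2 * |y|)) ≤ 1 := by
      rw [Real.exp_le_one_iff]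
      have := abs_nonneg y
      linarith
    have hpow : (1 : ℝ) ≤ (1 + |y|) ^ n := one_le_pow₀ (by have := abs_nonneg y; linarith)
    have h2 : C1 * Real.exp (-(1 / 2 * |y|)) ≤ C1 * (1 + |y|) ^ n :=
      mul_le_mul_of_nonneg_left (hexp.trans hpow) hC10
    have h3 : |q.eval y| * chiM y ≤ C2 * (1 + |y|) ^ n := by
      calc |q.eval y| * chiM y ≤ |q.eval y| * 1 :=
            mul_le_mul_of_nonneg_left (mcl2_chi_le_one y) (abs_nonneg _)
        _ ≤ _ := by rw [mul_one]; exact hC2 y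
    calc |a y| ≤ _ := hsplit y
      _ ≤ C1 * (1 + |y|) ^ n + C2 * (1 + |y|) ^ n := add_le_add (h1.trans h2) h3
      _ ≤ (C1 + C2 * K + C2) * (1 + |y|) ^ n := by
          have : 0 ≤ C2 * K * (1 + |y|) ^ n := by positivity
          nlinarith

/-! ### Expansion -/

theorem mcl2_lif_add (m : ℕ) (e1 e2 : ℝ → ℝ → ℝ) : lif m (e1 + e2) = lif m e1 + lif m e2 := by
  funext r l y
  simp only [lif, Pi.add_apply]
  ring

theorem mcl2_lif_smul (m : ℕ) (c : ℝ) (e : ℝ → ℝ → ℝ) : lif m (c • e) = c • lif m e := by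
  funext r l y
  simp only [lif, Pi.smul_apply, smul_eq_mul]
  ring

theorem mcl2_lif_zero (m : ℕ) : lif m 0 = 0 := by
  funext r l y
  simp [lif]

theorem mcl2_exp_T (hE : S_ECL1) (m : ℕ) (Φ : F3) (hΦ : Φ ∈ MT m) :
    ∃ e ∈ LT, Φ - lif m e ∈ MT (m + 1) := by
  refine Submodule.span_induction (p := fun Φ _ => ∃ e ∈ LT, Φ - lif m e ∈ MT (m + 1))
    ?_ ?_ ?_ ?_ hΦ
  · rintro Φ ⟨k, n, a, h, hmk, ha, hh, rfl⟩
    rcases hmk.lt_or_eq with hlt | heq
    · refine ⟨0, LT.zero_mem, ?_⟩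
      rw [mcl2_lif_zero, sub_zero]
      exact Submodule.subset_span ⟨k, n, a, h, hlt, ha, hh, rfl⟩
    · subst heq
      obtain ⟨g, hg, hhg⟩ := mcl2_hadamard hh
      refine ⟨h 0 • fun l y => l ^ n * a y, LT.smul_mem _ (Submodule.subset_span ⟨n, a, ha, rfl⟩),
        ?_⟩
      have e : mono m n a h - lif m (h 0 • fun l y => l ^ n * a y) =
          mono (m + 1) n (fun y => y * a y) g := by
        funext r l y
        simp only [mono, lif, Pi.sub_apply, Pi.smul_apply, smul_eq_mul]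
        rw [hhg (r * y)]
        ring
      rw [e]
      exact Submodule.subset_span ⟨m + 1, n, _, g, le_rfl, mcl2_T_mul_y hE ha, hg, rfl⟩
  · refine ⟨0, LT.zero_mem, ?_⟩
    rw [mcl2_lif_zero, sub_zero]
    exact Submodule.zero_mem _
  · rintro Φ Ψ - - ⟨e1, he1, h1⟩ ⟨e2, he2, h2⟩
    refine ⟨e1 + e2, LT.add_mem he1 he2, ?_⟩
    rw [mcl2_lif_add, add_sub_add_comm]
    exact Submodule.add_mem _ h1 h2
  · rintro c Φ - ⟨e1, he1, h1⟩
    refine ⟨c • e1, LT.smul_mem _ he1, ?_⟩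
    rw [mcl2_lif_smul, ← smul_sub]
    exact Submodule.smul_mem _ _ h1

theorem mcl2_exp_P (m : ℕ) (Φ : F3) (hΦ : Φ ∈ MP m) :
    ∃ e ∈ LP, Φ - lif m e ∈ MP (m + 1) := by
  refine Submodule.span_induction (p := fun Φ _ => ∃ e ∈ LP, Φ - lif m e ∈ MP (m + 1))
    ?_ ?_ ?_ ?_ hΦ
  · rintro Φ ⟨k, n, i, h, hmk, hh, rfl⟩
    rcases hmk.lt_or_eq with hlt | heq
    · refine ⟨0, LP.zero_mem, ?_⟩
      rw [mcl2_lif_zero, sub_zero]
      exact Submodule.subset_span ⟨k, n, i, h, hlt, hh, rfl⟩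
    · subst heq
      obtain ⟨g, hg, hhg⟩ := mcl2_hadamard hh
      refine ⟨h 0 • fun l y => l ^ n * y ^ i, LP.smul_mem _ (Submodule.subset_span ⟨n, i, rfl⟩),
        ?_⟩
      have e : mono m n (fun y => y ^ i) h - lif m (h 0 • fun l y => l ^ n * y ^ i) =
          mono (m + 1) n (fun y => y ^ (i + 1)) g := by
        funext r l y
        simp only [mono, lif, Pi.sub_apply, Pi.smul_apply, smul_eq_mul]
        rw [hhg (r * y)]
        ring
      rw [e]
      exact Submodule.subset_span ⟨m + 1, n, i + 1, g, le_rfl, hg, rfl⟩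
  · refine ⟨0, LP.zero_mem, ?_⟩
    rw [mcl2_lif_zero, sub_zero]
    exact Submodule.zero_mem _
  · rintro Φ Ψ - - ⟨e1, he1, h1⟩ ⟨e2, he2, h2⟩
    refine ⟨e1 + e2, LP.add_mem he1 he2, ?_⟩
    rw [mcl2_lif_add, add_sub_add_comm]
    exact Submodule.add_mem _ h1 h2
  · rintro c Φ - ⟨e1, he1, h1⟩
    refine ⟨c • e1, LP.smul_mem _ he1, ?_⟩
    rw [mcl2_lif_smul, ← smul_sub]
    exact Submodule.smul_mem _ _ h1

/-! ### Bounds -/

theorem mcl2_bd_T (hE : S_ECL1) (m : ℕ) (Φ : F3) (hΦ : Φ ∈ MT m) :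
    ∃ (C : ℝ) (n : ℕ), 0 ≤ C ∧ ∀ N : ℕ, n ≤ N → ∀ r l y : ℝ, 0 < r → r ≤ 1 →
      (0 ≤ y → |Φ r l y| ≤ C * r ^ m * (1 + |l|) ^ N * Real.exp (-(y / 2))) ∧
      (y ≤ 0 → |Φ r l y| ≤ C * r ^ m * (1 + |l|) ^ N * (1 + |y|) ^ N) := by
  refine Submodule.span_induction (p := fun Φ _ => ∃ (C : ℝ) (n : ℕ), 0 ≤ C ∧ ∀ N : ℕ, n ≤ N →
      ∀ r l y : ℝ, 0 < r → r ≤ 1 →
      (0 ≤ y → |Φ r l y| ≤ C * r ^ m * (1 + |l|) ^ N * Real.exp (-(y / 2))) ∧
      (y ≤ 0 → |Φ r l y| ≤ C * r ^ m * (1 + |l|) ^ N * (1 + |y|) ^ N))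
    ?_ ?_ ?_ ?_ hΦ
  · rintro Φ ⟨k, n, a, h, hmk, ha, hh, rfl⟩
    obtain ⟨Ca, na, hCa, hba⟩ := mcl2_T_bd hE ha
    obtain ⟨Ch, hCh⟩ := hh.2 0
    simp only [iteratedDeriv_zero] at hCh
    have hCh0 : 0 ≤ Ch := (abs_nonneg _).trans (hCh 0)
    refine ⟨Ca * Ch, max n na, by positivity, fun N hN r l y hr0 hr1 => ?_⟩
    have hnN : n ≤ N := (le_max_left _ _).trans hN
    have hnaN : na ≤ N := (le_max_right _ _).trans hN
    have hl1 : (1 : ℝ) ≤ 1 + |l| := by have := abs_nonneg l; linarith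
    have hy1 : (1 : ℝ) ≤ 1 + |y| := by have := abs_nonneg y; linarith
    have hrk : r ^ k ≤ r ^ m := pow_le_pow_of_le_one hr0.le hr1 hmk
    have hln : |l| ^ n ≤ (1 + |l|) ^ N :=
      (pow_le_pow_left₀ (abs_nonneg l) (by linarith) n).trans (pow_le_pow_right₀ hl1 hnN)
    have hgen : ∀ B : ℝ, 0 ≤ B → |a y| ≤ Ca * B →
        |mono k n a h r l y| ≤ Ca * Ch * r ^ m * (1 + |l|) ^ N * B := by
      intro B hB hab
      have e : |mono k n a h r l y| = (r ^ k * |l| ^ n) * (|a y| * |h (r * y)|) := by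
        simp only [mono]
        rw [abs_mul, abs_mul, abs_mul, abs_pow, abs_pow, abs_of_pos hr0]
        ring
      rw [e]
      calc (r ^ k * |l| ^ n) * (|a y| * |h (r * y)|)
          ≤ (r ^ m * (1 + |l|) ^ N) * ((Ca * B) * Ch) := by
            refine mul_le_mul (mul_le_mul hrk hln (by positivity) (by positivity))
              (mul_le_mul hab (hCh _) (abs_nonneg _) (by positivity)) (by positivity)
              (by positivity)
        _ = _ := by ring
    refine ⟨fun hy => hgen _ (Real.exp_pos _).le ((hba y).1 hy), fun hy => ?_⟩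
    refine hgen _ (by positivity) (((hba y).2 hy).trans ?_)
    exact mul_le_mul_of_nonneg_left (pow_le_pow_right₀ hy1 hnaN) hCa
  · refine ⟨0, 0, le_rfl, fun N _ r l y _ _ => ⟨fun _ => ?_, fun _ => ?_⟩⟩ <;> simp
  · rintro Φ Ψ - - ⟨C1, n1, hC1, h1⟩ ⟨C2, n2, hC2, h2⟩
    refine ⟨C1 + C2, max n1 n2, by positivity, fun N hN r l y hr0 hr1 => ?_⟩
    have h1' := h1 N ((le_max_left _ _).trans hN) r l y hr0 hr1
    have h2' := h2 N ((le_max_right _ _).trans hN) r l y hr0 hr1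
    refine ⟨fun hy => ?_, fun hy => ?_⟩
    · have a1 := h1'.1 hy
      have a2 := h2'.1 hy
      calc |(Φ + Ψ) r l y| ≤ |Φ r l y| + |Ψ r l y| := abs_add_le _ _
        _ ≤ _ := add_le_add a1 a2
        _ = _ := by ring
    · have a1 := h1'.2 hy
      have a2 := h2'.2 hy
      calc |(Φ + Ψ) r l y| ≤ |Φ r l y| + |Ψ r l y| := abs_add_le _ _
        _ ≤ _ := add_le_add a1 a2
        _ = _ := by ring
  · rintro c Φ - ⟨C1, n1, hC1, h1⟩
    refine ⟨|c| * C1, n1, by positivity, fun N hN r l y hr0 hr1 => ?_⟩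
    have h1' := h1 N hN r l y hr0 hr1
    refine ⟨fun hy => ?_, fun hy => ?_⟩
    · have a1 := h1'.1 hy
      calc |(c • Φ) r l y| = |c| * |Φ r l y| := by
            simp only [Pi.smul_apply, smul_eq_mul, abs_mul]
        _ ≤ |c| * _ := mul_le_mul_of_nonneg_left a1 (abs_nonneg _)
        _ = _ := by ring
    · have a1 := h1'.2 hy
      calc |(c • Φ) r l y| = |c| * |Φ r l y| := by
            simp only [Pi.smul_apply, smul_eq_mul, abs_mul]
        _ ≤ |c| * _ := mul_le_mul_of_nonneg_left a1 (abs_nonneg _)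
        _ = _ := by ring

theorem mcl2_bd_P (m : ℕ) (Φ : F3) (hΦ : Φ ∈ MP m) :
    ∃ (C : ℝ) (n : ℕ), 0 ≤ C ∧ ∀ N : ℕ, n ≤ N → ∀ r l y : ℝ, 0 < r → r ≤ 1 →
      |Φ r l y| ≤ C * r ^ m * (1 + |l|) ^ N * (1 + |y|) ^ N := by
  refine Submodule.span_induction (p := fun Φ _ => ∃ (C : ℝ) (n : ℕ), 0 ≤ C ∧ ∀ N : ℕ, n ≤ N →
      ∀ r l y : ℝ, 0 < r → r ≤ 1 → |Φ r l y| ≤ C * r ^ m * (1 + |l|) ^ N * (1 + |y|) ^ N)
    ?_ ?_ ?_ ?_ hΦ
  · rintro Φ ⟨k, n, i, h, hmk, hh, rfl⟩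
    obtain ⟨Ch, hCh⟩ := hh.2 0
    simp only [iteratedDeriv_zero] at hCh
    have hCh0 : 0 ≤ Ch := (abs_nonneg _).trans (hCh 0)
    refine ⟨Ch, max n i, hCh0, fun N hN r l y hr0 hr1 => ?_⟩
    have hnN : n ≤ N := (le_max_left _ _).trans hN
    have hiN : i ≤ N := (le_max_right _ _).trans hN
    have hl1 : (1 : ℝ) ≤ 1 + |l| := by have := abs_nonneg l; linarith
    have hy1 : (1 : ℝ) ≤ 1 + |y| := by have := abs_nonneg y; linarith
    have hrk : r ^ k ≤ r ^ m := pow_le_pow_of_le_one hr0.le hr1 hmk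
    have hln : |l| ^ n ≤ (1 + |l|) ^ N :=
      (pow_le_pow_left₀ (abs_nonneg l) (by linarith) n).trans (pow_le_pow_right₀ hl1 hnN)
    have hyn : |y| ^ i ≤ (1 + |y|) ^ N :=
      (pow_le_pow_left₀ (abs_nonneg y) (by linarith) i).trans (pow_le_pow_right₀ hy1 hiN)
    have e : |mono k n (fun y => y ^ i) h r l y| = (r ^ k * |l| ^ n) * (|y| ^ i * |h (r * y)|) := by
      simp only [mono]
      rw [abs_mul, abs_mul, abs_mul, abs_pow, abs_pow, abs_pow, abs_of_pos hr0]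
      ring
    rw [e]
    calc (r ^ k * |l| ^ n) * (|y| ^ i * |h (r * y)|)
        ≤ (r ^ m * (1 + |l|) ^ N) * ((1 + |y|) ^ N * Ch) := by
          refine mul_le_mul (mul_le_mul hrk hln (by positivity) (by positivity))
            (mul_le_mul hyn (hCh _) (abs_nonneg _) (by positivity)) (by positivity)
            (by positivity)
      _ = _ := by ring
  · refine ⟨0, 0, le_rfl, fun N _ r l y _ _ => ?_⟩
    simp
  · rintro Φ Ψ - - ⟨C1, n1, hC1, h1⟩ ⟨C2, n2, hC2, h2⟩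
    refine ⟨C1 + C2, max n1 n2, by positivity, fun N hN r l y hr0 hr1 => ?_⟩
    have a1 := h1 N ((le_max_left _ _).trans hN) r l y hr0 hr1
    have a2 := h2 N ((le_max_right _ _).trans hN) r l y hr0 hr1
    calc |(Φ + Ψ) r l y| ≤ |Φ r l y| + |Ψ r l y| := abs_add_le _ _
      _ ≤ _ := add_le_add a1 a2
      _ = _ := by ring
  · rintro c Φ - ⟨C1, n1, hC1, h1⟩
    refine ⟨|c| * C1, n1, by positivity, fun N hN r l y hr0 hr1 => ?_⟩
    have a1 := h1 N hN r l y hr0 hr1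
    calc |(c • Φ) r l y| = |c| * |Φ r l y| := by
          simp only [Pi.smul_apply, smul_eq_mul, abs_mul]
      _ ≤ |c| * _ := mul_le_mul_of_nonneg_left a1 (abs_nonneg _)
      _ = _ := by ring

/-- Packet MCL2. -/
theorem thm_MCL2 (_hQ : S_QF) (hE : S_ECL1) : S_MCL2 := by
  refine ⟨mcl2_exp_T hE, mcl2_exp_P, fun m Φ hΦ => ?_, fun m Φ hΦ => ?_⟩
  · obtain ⟨C, n, -, h⟩ := mcl2_bd_T hE m Φ hΦ
    exact ⟨C, n, fun r l y h0 h1 => h n le_rfl r l y h0 h1⟩
  · obtain ⟨C, n, -, h⟩ := mcl2_bd_P m Φ hΦ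
    exact ⟨C, n, fun r l y h0 h1 => h n le_rfl r l y h0 h1⟩

end Pool.Agent.Helper41.KV
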