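import Pool.Agent.Helper33.KV.GoalsF
import Pool.Agent.Helper38.KV.PR

/-!
# Packet KV-F-PROFZ: existence of the profiles `Z`, `Y`
-/

set_option autoImplicit false

namespace Pool.Agent.Helper33.KV

open Real MeasureTheory Filter Topology Pool.Agent.Helper41.KV Pool.Agent.Helper38.KV

theorem profz_tanh (y : ℝ) : HasDerivAt (fun y => Real.tanh (2 * y)) (2 * (1 / (Real.cosh (2 * y)) ^ 2)) y := by
  have hc : Real.cosh (2 * y) ≠ 0 := (Real.cosh_pos _).ne'
  have h2 : HasDerivAt (fun y : ℝ => 2 * y) 2 y := by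
    simpa using (hasDerivAt_id y).const_mul (2 : ℝ)
  have hs : HasDerivAt (fun y : ℝ => Real.sinh (2 * y)) (Real.cosh (2 * y) * 2) y :=
    (Real.hasDerivAt_sinh (2 * y)).comp y h2
  have hco : HasDerivAt (fun y : ℝ => Real.cosh (2 * y)) (Real.sinh (2 * y) * 2) y :=
    (Real.hasDerivAt_cosh (2 * y)).comp y h2
  have h := hs.div hco hc
  have e : (fun y : ℝ => Real.tanh (2 * y)) = fun y => Real.sinh (2 * y) / Real.cosh (2 * y) := by
    funext y
    rw [Real.tanh_eq_sinh_div_cosh]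
  rw [e]
  refine h.congr_deriv ?_
  have h3 := Real.cosh_sq (2 * y)
  field_simp
  linear_combination h3

theorem thm_PROFZ (hQ : S_QF) (hE : S_ECL1) (hE2 : S_ECL2) (hP : S_PR) : S_PROFZ := by
  obtain ⟨-, R, P, hR, -, hLR, -, hPt, hPeq, -, -⟩ := hP
  have hQE := isE_Q hQ
  have hI : 0 < IQ := by
    have hi := E_int hE hQE
    refine (integral_pos_iff_support_of_nonneg (fun y => (hQ.2.1 y).le) hi).2 ?_
    have : Function.support Q = Set.univ := by
      ext y
      simp [(hQ.2.1 y).ne']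
    rw [this]
    simp
  set m : ℝ := 4 / IQ with hm
  have hmI : m * (IQ / 2) = 2 := by
    rw [hm]
    field_simp
    norm_num
  have hRP := E_P hE hR
  have hPP : IsP P := by
    have h := P_add hE (E_P hE hPt) (P_mul hE (P_poly hE (Polynomial.C ((∫ y, Q y) / 2)))
      (P_chiM hE))
    have he : (fun y => (P y - (Polynomial.C ((∫ y, Q y) / 2)).eval y * chiM y) +
        (Polynomial.C ((∫ y, Q y) / 2)).eval y * chiM y) = P := by
      funext y
      ring
    rwa [he] at h
  set Z0 : ℝ → ℝ := fun y => (1 + R y) - m * P y with hZ0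
  have h1R : IsP (fun x => 1 + R x) := P_add hE (P_const hE 1) hRP
  have hT : IsE (fun y => Z0 y - Real.tanh (2 * y)) := by
    have h := E_add hE hR (E_smul hE (-m) hPt)
    have he : (fun y => R y + -m * (P y - (Polynomial.C ((∫ y, Q y) / 2)).eval y * chiM y)) =
        fun y => Z0 y - Real.tanh (2 * y) := by
      funext y
      have e1 : m * ((∫ y, Q y) / 2) = 2 := hmI
      rw [hZ0, Polynomial.eval_C]
      unfold chiM
      linear_combination ((1 - Real.tanh (2 * y)) / 2) * e1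
    rwa [he] at h
  have hZ0P : IsP Z0 := by
    have h := P_add hE (E_P hE hT) (P_tanh hE)
    have he : (fun y => (Z0 y - Real.tanh (2 * y)) + Real.tanh (2 * y)) = Z0 := by
      funext y
      ring
    rwa [he] at h
  have hd0 : deriv Z0 = fun y => deriv (fun x => 1 + R x) y - m * deriv P y := by
    funext y
    exact ((P_diff h1R y).sub ((P_diff hPP y).const_mul m)).deriv
  have hdd0 : ∀ y, deriv (deriv Z0) y = deriv (deriv (fun x => 1 + R x)) y -
      m * deriv (deriv P) y := by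
    intro y
    rw [hd0]
    exact ((P_diff (P_deriv hE h1R) y).sub ((P_diff (P_deriv hE hPP) y).const_mul m)).deriv
  have hL0 : Lop Z0 = fun y => 1 - m * Lop P y := by
    funext y
    rw [← hLR y]
    unfold Lop
    rw [hdd0]
    rw [hZ0]
    ring
  have hL0d : ∀ y, HasDerivAt (Lop Z0) (-(m * Lam Q y)) y := by
    intro y
    rw [hL0]
    exact ((hPeq y).const_mul m).const_sub 1
  have hneg : ∀ y : ℝ, HasDerivAt (fun y : ℝ => -y) (-1) y := fun y => hasDerivAt_neg y
  -- the odd part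
  set Z : ℝ → ℝ := fun y => 1 / 2 * Z0 y - 1 / 2 * Z0 (-y) with hZ
  have hZd : deriv Z = fun y => 1 / 2 * deriv Z0 y + 1 / 2 * deriv Z0 (-y) := by
    funext y
    have h2 := (P_diff hZ0P (-y)).comp y (hneg y)
    have h := ((P_diff hZ0P y).const_mul (1 / 2)).sub (h2.const_mul (1 / 2))
    have h' : HasDerivAt Z (1 / 2 * deriv Z0 y - 1 / 2 * (deriv Z0 (-y) * -1)) y := h
    rw [h'.deriv]
    ring
  have hZdd : ∀ y, deriv (deriv Z) y = 1 / 2 * deriv (deriv Z0) y -
      1 / 2 * deriv (deriv Z0) (-y) := by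
    intro y
    rw [hZd]
    have hdP := P_deriv hE hZ0P
    have h2 := (P_diff hdP (-y)).comp y (hneg y)
    have h := ((P_diff hdP y).const_mul (1 / 2)).add (h2.const_mul (1 / 2))
    have h' : HasDerivAt (fun y => 1 / 2 * deriv Z0 y + 1 / 2 * deriv Z0 (-y))
      (1 / 2 * deriv (deriv Z0) y + 1 / 2 * (deriv (deriv Z0) (-y) * -1)) y := h
    rw [h'.deriv]
    ring
  have hLZ : Lop Z = fun y => 1 / 2 * Lop Z0 y - 1 / 2 * Lop Z0 (-y) := by
    funext y
    unfold Lop
    rw [hZdd, hQ.2.2.1 y]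
    rw [hZ]
    ring
  have hLam : ∀ y, Lam Q (-y) = Lam Q y := by
    intro y
    unfold Lam
    rw [Qd_odd hQ, hQ.2.2.1 y]
    ring
  have hZeq : ∀ y, HasDerivAt (Lop Z) (-m * Lam Q y) y := by
    intro y
    rw [hLZ]
    have h2 := (hL0d (-y)).comp y (hneg y)
    have h := ((hL0d y).const_mul (1 / 2)).sub (h2.const_mul (1 / 2))
    have h' : HasDerivAt (fun y => 1 / 2 * Lop Z0 y - 1 / 2 * Lop Z0 (-y))
      (1 / 2 * -(m * Lam Q y) - 1 / 2 * (-(m * Lam Q (-y)) * -1)) y := h
    refine h'.congr_deriv ?_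
    rw [hLam]
    ring
  have hZtail : IsE (fun y => Z y - Real.tanh (2 * y)) := by
    have hTn : IsE (fun y => Z0 (-y) - Real.tanh (2 * -y)) :=
      hE.2.2.2.2.2.2.2.2.2.2.2.2.2.2.1 _ hT
    have h := E_sub hE (E_smul hE (1 / 2) hT) (E_smul hE (1 / 2) hTn)
    have he : (fun y => 1 / 2 * (Z0 y - Real.tanh (2 * y)) -
        1 / 2 * (Z0 (-y) - Real.tanh (2 * -y))) = fun y => Z y - Real.tanh (2 * y) := by
      funext y
      rw [hZ, mul_neg, Real.tanh_neg]
      ring
    rwa [he] at h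
  have hZ1 : IsZ1 Z := by
    refine ⟨hZtail, fun y => ?_, hZeq⟩
    rw [hZ]
    simp only [neg_neg]
    ring
  -- the companion
  have hZP : IsP Z := by
    have h := P_add hE (E_P hE hZtail) (P_tanh hE)
    have he : (fun y => (Z y - Real.tanh (2 * y)) + Real.tanh (2 * y)) = Z := by
      funext y
      ring
    rwa [he] at h
  have hsech : IsE (fun y => 1 / (Real.cosh (2 * y)) ^ 2) := hE.2.2.2.2.2.2.2.2.2.2.2.2.2.1
  have hZ'E : IsE (deriv Z) := by
    have h := E_add hE (E_deriv hE hZtail) (E_smul hE 2 hsech)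
    have he : (fun y => deriv (fun y => Z y - Real.tanh (2 * y)) y +
        2 * (1 / (Real.cosh (2 * y)) ^ 2)) = deriv Z := by
      funext y
      have h' : HasDerivAt (fun y => Z y - Real.tanh (2 * y))
        (deriv Z y - 2 * (1 / (Real.cosh (2 * y)) ^ 2)) y := (P_diff hZP y).sub (profz_tanh y)
      rw [h'.deriv]
      ring
    rwa [he] at h
  have hfE : IsE (fun y => deriv Z y + m * Lam Q y) :=
    E_add hE hZ'E (E_smul hE m (isE_Lam hQ hE))
  have hZtop : Tendsto Z atTop (𝓝 1) := by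
    have h := (IsE.tendsto hZtail).1.add tendsto_tanh_top
    rw [zero_add] at h
    refine h.congr fun y => ?_
    ring
  have hZbot : Tendsto Z atBot (𝓝 (-1)) := by
    have h := (IsE.tendsto hZtail).2.add tendsto_tanh_bot
    rw [zero_add] at h
    refine h.congr fun y => ?_
    ring
  have hint : (∫ y, (deriv Z y + m * Lam Q y)) = 0 := by
    rw [integral_add (E_int hE hZ'E) ((E_int hE (isE_Lam hQ hE)).const_mul m),
      integral_const_mul, int_Lam hQ hE,
      integral_of_hasDerivAt_of_tendsto (fun y => P_diff hZP y) (E_int hE hZ'E) hZbot hZtop]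
    have e1 : m * ((∫ y, Q y) / 2) = 2 := hmI
    linarith
  obtain ⟨Y, hYE, hYd⟩ := hE2.1 _ hfE hint
  exact ⟨Z, Y, hZ1, ⟨hYE, hYd⟩⟩

end Pool.Agent.Helper33.KV
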